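import Pool.Agent.Lib.MP_d1b55a_co.CI6
import Pool.Agent.Lib.MP_d1b55a_co.PR4
import Pool.Agent.Lib.MP_d1b55a_co.P4

/-!
MP_d1b55a_co, Q1 (proved): every zero `q ≠ 1` of the all-terminal reliability polynomial of the
complete graph `K_n` satisfies `|q| < 1`.
-/

namespace Pool.Agent.Results.MP_d1b55a_co.ReliabilityRoots

theorem result (n : ℕ) (hn : 1 ≤ n) (q : ℂ) (hq : q ≠ 1)
    (h0 : MP_d1b55a.Rel (⊤ : SimpleGraph (Fin n)) q = 0) : ‖q‖ < 1 := by
  refine MP_d1b55a.rel_of_good ?_ n hn q hq h0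
  intro θ h1 h2
  rcases le_total θ (3 / 1000) with h | h
  · exact MP_d1b55a.good_small_theta θ h1 h
  · exact MP_d1b55a.good_from_003 θ (by norm_num at h ⊢; exact h) h2

end Pool.Agent.Results.MP_d1b55a_co.ReliabilityRoots
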